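import Pool.Agent.helper66.WD.Spec

/-! WD, row EXP: logarithmic derivative of a product of powers. -/

set_option autoImplicit false

universe u

namespace Pool.Agent.WD

open MvPolynomial Pool.Agent.helper92.VC

theorem EXP_pow {B : Type u} [CommRing B] (d : B → B) (hd : IsDer d) (x : B) (n : ℕ) :
    x * d (x ^ n) = (n : B) * d x * x ^ n := by
  have h0 : d 1 = 0 := by
    have := hd.mul 1 1
    rw [mul_one, one_mul] at this
    have h2 : d 1 + 0 = d 1 + d 1 := by rw [add_zero]; exact this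
    exact (add_left_cancel h2).symm
  induction n with
  | zero => rw [pow_zero, h0, Nat.cast_zero]; ring
  | succ n ih =>
    rw [pow_succ, hd.mul, mul_add]
    have e : x * (x * d (x ^ n)) = x * ((n : B) * d x * x ^ n) := by rw [ih]
    have e2 : x * (x ^ n * d x) = x ^ (n + 1) * d x := by ring
    rw [e, e2]
    push_cast
    ring

theorem EXP_prod {B : Type u} [CommRing B] (d : B → B) (hd : IsDer d) {c : ℕ} (A : Fin c → B) (a : Fin c → ℕ)
    (s : Finset (Fin c)) :
    (∏ j ∈ s, A j) * d (∏ j ∈ s, A j ^ a j) =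
      (∑ j ∈ s, (a j : B) * d (A j) * ∏ l ∈ s.erase j, A l) * ∏ j ∈ s, A j ^ a j := by
  classical
  have h0 : d 1 = 0 := by
    have := hd.mul 1 1
    rw [mul_one, one_mul] at this
    have h2 : d 1 + 0 = d 1 + d 1 := by rw [add_zero]; exact this
    exact (add_left_cancel h2).symm
  induction s using Finset.induction_on with
  | empty => simp [h0]
  | insert i s hi ih =>
    rw [Finset.prod_insert hi, Finset.prod_insert hi, Finset.sum_insert hi, Finset.erase_insert hi, hd.mul]
    have hs : ∑ j ∈ s, (a j : B) * d (A j) * ∏ l ∈ (insert i s).erase j, A l =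
        A i * ∑ j ∈ s, (a j : B) * d (A j) * ∏ l ∈ s.erase j, A l := by
      rw [Finset.mul_sum]
      refine Finset.sum_congr rfl fun j hj => ?_
      have hne : j ≠ i := fun h => hi (h ▸ hj)
      rw [Finset.erase_insert_of_ne hne.symm, Finset.prod_insert (fun h => hi (Finset.mem_of_mem_erase h))]
      ring
    rw [hs]
    have hp := EXP_pow d hd (A i) (a i)
    have e1 : A i * (∏ j ∈ s, A j) * (A i ^ a i * d (∏ j ∈ s, A j ^ a j) + (∏ j ∈ s, A j ^ a j) * d (A i ^ a i)) =
        A i * A i ^ a i * ((∏ j ∈ s, A j) * d (∏ j ∈ s, A j ^ a j)) +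
        (∏ j ∈ s, A j) * (∏ j ∈ s, A j ^ a j) * (A i * d (A i ^ a i)) := by ring
    rw [e1, ih, hp]
    ring

theorem EXP : EXP_stmt.{u} := by
  intro B _ d hd c w A P κ a p hκ
  have hA := EXP_prod d hd A a Finset.univ
  have hP := EXP_prod d hd P p Finset.univ
  unfold hh
  rw [hd.mul, hd.mul κ, hκ]
  have e1 : ((∏ j, A j) * ∏ j, P j) * (κ * (∏ j, A j ^ a j) * d (∏ j, P j ^ p j) +
      (∏ j, P j ^ p j) * (κ * d (∏ j, A j ^ a j) + (∏ j, A j ^ a j) * 0)) =
      (∏ j, A j) * κ * (∏ j, A j ^ a j) * ((∏ j, P j) * d (∏ j, P j ^ p j)) +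
      (∏ j, P j) * (∏ j, P j ^ p j) * κ * ((∏ j, A j) * d (∏ j, A j ^ a j)) := by ring
  rw [e1, hA, hP]
  ring

end Pool.Agent.WD
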